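import Mathlib

set_option autoImplicit false

/-!
The binary matroid on `Fin 9` represented over `GF(2)` by the columns
1000, 0100, 0010, 0001, 1110, 1011, 1101, 1000, 1111.
Its bases are listed as bit masks.
-/

namespace Pool.Agent.Lib.MP_cb399b_co

/-- bit masks of the bases -/
def masks : List ℕ := [15, 27, 29, 30, 39, 43, 46, 51, 53, 54, 57, 60, 71, 77, 78, 83, 85, 86, 89, 90, 99, 101, 105, 106, 108, 114, 116, 120, 142, 154, 156, 166, 170, 178, 180, 184, 198, 204, 210, 212, 216, 226, 228, 232, 263, 267, 269, 270, 275, 277, 278, 293, 297, 300, 305, 308, 323, 329, 330, 337, 338, 353, 360, 368, 390, 394, 396, 402, 404, 420, 424, 432, 450, 456, 464, 480]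

/-- the subset of `Fin 9` coded by a bit mask -/
def toSet (m : ℕ) : Set (Fin 9) := {i | m.testBit i = true}

/-- the base predicate -/
def IsB (S : Set (Fin 9)) : Prop := ∃ m ∈ masks, S = toSet m

theorem exch_masks : ∀ m₁ ∈ masks, ∀ m₂ ∈ masks, ∀ a : Fin 9, m₁.testBit a = true →
    m₂.testBit a = false → ∃ b : Fin 9, m₂.testBit b = true ∧ m₁.testBit b = false ∧
      (m₁ ^^^ 2 ^ (a : ℕ) ^^^ 2 ^ (b : ℕ)) ∈ masks ∧
      ∀ i : Fin 9, (m₁ ^^^ 2 ^ (a : ℕ) ^^^ 2 ^ (b : ℕ)).testBit i =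
        (decide (i = b) || (m₁.testBit i && !decide (i = a))) := by
  decide +kernel

theorem exch : Matroid.ExchangeProperty IsB := by
  rintro _ _ ⟨m₁, h₁, rfl⟩ ⟨m₂, h₂, rfl⟩ a ⟨ha₁, ha₂⟩
  obtain ⟨b, hb₂, hb₁, hm, hi⟩ := exch_masks m₁ h₁ m₂ h₂ a ha₁ (by simpa [toSet] using ha₂)
  refine ⟨b, ⟨hb₂, by simp [toSet, hb₁]⟩, _, hm, ?_⟩
  ext i
  simp only [toSet, Set.mem_insert_iff, Set.mem_diff, Set.mem_setOf_eq, Set.mem_singleton_iff,
    hi i, Bool.or_eq_true, Bool.and_eq_true, decide_eq_true_eq, Bool.not_eq_true',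
    decide_eq_false_iff_not]

/-- the counterexample matroid -/
def M : Matroid (Fin 9) :=
  Matroid.ofIsBaseOfFinite (E := Set.univ) Set.finite_univ IsB
    ⟨toSet 15, 15, by decide, rfl⟩ exch (fun _ _ => Set.subset_univ _)

theorem M_E : M.E = Set.univ := rfl

theorem M_isBase (S : Set (Fin 9)) : M.IsBase S ↔ ∃ m ∈ masks, S = toSet m := Iff.rfl

theorem M_eRank : M.eRank = 4 := by
  have h : M.IsBase (toSet 15) := ⟨15, by decide, rfl⟩
  rw [← h.encard_eq_eRank]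
  have : toSet 15 = (({0, 1, 2, 3} : Finset (Fin 9)) : Set (Fin 9)) := by
    ext i
    simp only [toSet, Set.mem_setOf_eq, Finset.mem_coe]
    revert i
    decide
  rw [this, Set.encard_coe_eq_coe_finsetCard]
  rfl

theorem M_encard : M.E.encard = 9 := by
  rw [M_E, ← Finset.coe_univ, Set.encard_coe_eq_coe_finsetCard]
  rfl

theorem part_of_masks (p q : ℕ) (hp : p ∈ masks) (hq : q ∈ masks) (z : Fin 9)
    (hd : ∀ i : Fin 9, ¬ (p.testBit i = true ∧ q.testBit i = true))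
    (hc : ∀ i : Fin 9, (p.testBit i = true ∨ q.testBit i = true) ↔ i ≠ z) :
    ∃ B : Fin 2 → Set (Fin 9), (∀ i, M.IsBase (B i)) ∧
      (∀ i j, i ≠ j → Disjoint (B i) (B j)) ∧ (⋃ i, B i) = M.E \ {z} := by
  have hdis : Disjoint (toSet p) (toSet q) := by
    rw [Set.disjoint_left]
    intro i h1 h2
    exact hd i ⟨h1, h2⟩
  refine ⟨![toSet p, toSet q], ?_, ?_, ?_⟩
  · intro i
    fin_cases i
    · exact ⟨p, hp, rfl⟩
    · exact ⟨q, hq, rfl⟩
  · intro i j hij
    fin_cases i <;> fin_cases j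
    · exact absurd rfl hij
    · exact hdis
    · exact hdis.symm
    · exact absurd rfl hij
  · ext i
    have := hc i
    simp only [Set.mem_iUnion, Fin.exists_fin_two, M_E, Set.mem_diff, Set.mem_univ, true_and,
      Set.mem_singleton_iff]
    exact this

theorem part_x : ∃ B : Fin 2 → Set (Fin 9), (∀ i, M.IsBase (B i)) ∧
    (∀ i j, i ≠ j → Disjoint (B i) (B j)) ∧ (⋃ i, B i) = M.E \ {7} :=
  part_of_masks 15 368 (by decide) (by decide) 7 (by decide) (by decide)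

theorem part_y : ∃ B : Fin 2 → Set (Fin 9), (∀ i, M.IsBase (B i)) ∧
    (∀ i j, i ≠ j → Disjoint (B i) (B j)) ∧ (⋃ i, B i) = M.E \ {8} :=
  part_of_masks 89 166 (by decide) (by decide) 8 (by decide) (by decide)

theorem no_common_masks : ∀ c ∈ masks,
    (∀ p ∈ masks, ¬ ∀ i : Fin 9, (c.testBit i = true ∨ p.testBit i = true) ↔ i ≠ 7) ∨
    (∀ q ∈ masks, ¬ ∀ i : Fin 9, (c.testBit i = true ∨ q.testBit i = true) ↔ i ≠ 8) := by
  decide +kernel

theorem other_mask (P : Fin 2 → Set (Fin 9)) (hP : ∀ i, M.IsBase (P i)) (z : Fin 9)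
    (hU : (⋃ i, P i) = M.E \ {z}) (i : Fin 2) (c : ℕ) (hc : P i = toSet c) :
    ∃ p ∈ masks, ∀ e : Fin 9, (c.testBit e = true ∨ p.testBit e = true) ↔ e ≠ z := by
  have hU' : ∀ e : Fin 9, (e ∈ P 0 ∨ e ∈ P 1) ↔ e ≠ z := by
    intro e
    have := Set.ext_iff.mp hU e
    simpa only [Set.mem_iUnion, Fin.exists_fin_two, M_E, Set.mem_diff, Set.mem_univ, true_and,
      Set.mem_singleton_iff] using this
  fin_cases i
  · obtain ⟨p, hp, hp'⟩ := hP 1
    refine ⟨p, hp, fun e => ?_⟩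
    have h0 : P 0 = toSet c := hc
    have := hU' e
    rw [h0, hp'] at this
    exact this
  · obtain ⟨p, hp, hp'⟩ := hP 0
    refine ⟨p, hp, fun e => ?_⟩
    have h1 : P 1 = toSet c := hc
    have := hU' e
    rw [h1, hp', or_comm] at this
    exact this

theorem no_common (P Q : Fin 2 → Set (Fin 9)) (hP : ∀ i, M.IsBase (P i))
    (hPU : (⋃ i, P i) = M.E \ {7}) (hQ : ∀ i, M.IsBase (Q i))
    (hQU : (⋃ i, Q i) = M.E \ {8}) (i j : Fin 2) : P i ≠ Q j := by
  intro h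
  obtain ⟨c, hc, hc'⟩ := hP i
  obtain ⟨p, hp, hp'⟩ := other_mask P hP 7 hPU i c hc'
  obtain ⟨q, hq, hq'⟩ := other_mask Q hQ 8 hQU j c (h ▸ hc')
  rcases no_common_masks c hc with h1 | h1
  · exact h1 p hp hp'
  · exact h1 q hq hq'

end Pool.Agent.Lib.MP_cb399b_co
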