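import Mathlib

set_option autoImplicit false

namespace Pool.Agent.Lib.MP_cb399b_co.Reach

open Set

variable {α : Type} {k : ℕ}

/-- `B` is a partition of `S` into `k` bases. -/
def Part (M : Matroid α) (B : Fin k → Set α) (S : Set α) : Prop :=
  (∀ i, M.IsBase (B i)) ∧ (∀ i j, i ≠ j → Disjoint (B i) (B j)) ∧ (⋃ i, B i) = S

/-- One round of the exchange search. -/
def step (M : Matroid α) (P : Fin k → Set α) (x : α) (S : Set α) : Set α :=
  insert x {w | ∃ j, w ∈ P j ∧ ¬ S ⊆ M.closure (P j \ {w})}

/-- Elements reached after `i` rounds. -/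
def reach (M : Matroid α) (P : Fin k → Set α) (x : α) : ℕ → Set α
  | 0 => {x}
  | i + 1 => step M P x (reach M P x i)

variable {M : Matroid α} {P : Fin k → Set α} {x : α}

lemma step_mono {S T : Set α} (h : S ⊆ T) : step M P x S ⊆ step M P x T := by
  rintro w (rfl | ⟨j, hw, hn⟩)
  · exact mem_insert _ _
  · exact Or.inr ⟨j, hw, fun hT => hn (h.trans hT)⟩

lemma step_le {S T : Set α} (h : S ⊆ M.closure T) : step M P x S ⊆ step M P x T := by
  rintro w (rfl | ⟨j, hw, hn⟩)
  · exact mem_insert _ _
  · exact Or.inr ⟨j, hw, fun hT => hn (h.trans (M.closure_subset_closure_of_subset_closure hT))⟩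

lemma reach_mono (i : ℕ) : reach M P x i ⊆ reach M P x (i + 1) := by
  induction i with
  | zero => rintro w rfl; exact mem_insert _ _
  | succ i ih => exact step_mono ih

lemma mem_reach (i : ℕ) : x ∈ reach M P x i := by
  cases i with
  | zero => rfl
  | succ i => exact mem_insert _ _

lemma reach_ground (hx : x ∈ M.E) (hP : ∀ i, M.IsBase (P i)) (i : ℕ) :
    reach M P x i ⊆ M.E := by
  cases i with
  | zero => rintro w rfl; exact hx
  | succ i =>
    rintro w (rfl | ⟨j, hw, -⟩)
    · exact hx
    · exact (hP j).subset_ground hw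

lemma exists_part (hx : x ∈ M.E) (hP : Part M P (M.E \ {x})) (i : ℕ) :
    ∀ z ∈ reach M P x i, ∃ Q : Fin k → Set α, Part M Q (M.E \ {z}) ∧
      {l | Q l ≠ P l}.ncard ≤ i ∧
      ∀ l, ∀ w ∈ P l, w ∉ reach M P x i → w ∈ Q l ∧ Q l \ {w} ⊆ M.closure (P l \ {w}) := by
  induction i with
  | zero =>
    rintro z rfl
    refine ⟨P, hP, by simp, fun l w hw _ => ⟨hw, ?_⟩⟩
    exact M.subset_closure _ (sdiff_subset.trans (hP.1 l).subset_ground)
  | succ i ih =>
    intro w hw
    by_cases hwi : w ∈ reach M P x i
    · obtain ⟨Q, h1, h2, h3⟩ := ih w hwi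
      exact ⟨Q, h1, h2.trans (Nat.le_succ i),
        fun l u hu hn => h3 l u hu fun h => hn (reach_mono i h)⟩
    rcases hw with rfl | ⟨j, hwj, hn⟩
    · exact absurd (mem_reach i) hwi
    obtain ⟨z, hz, hzn⟩ := not_subset.1 hn
    obtain ⟨Q, ⟨hb, hd, hU⟩, h2, h3⟩ := ih z hz
    obtain ⟨hwQ, hcl⟩ := h3 j w hwj hwi
    have hzE : z ∈ M.E := reach_ground hx hP.1 i hz
    have hzQ : ∀ l, z ∉ Q l := fun l hl => by
      have : z ∈ ⋃ l, Q l := mem_iUnion.2 ⟨l, hl⟩
      rw [hU] at this
      exact this.2 rfl
    have hzw : z ≠ w := fun h => hwi (h ▸ hz)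
    have hbase : M.IsBase (insert z (Q j \ {w})) :=
      (hb j).exchange_base_of_notMem_closure hwQ
        (fun h => hzn (M.closure_subset_closure_of_subset_closure hcl h)) hzE
    classical
    refine ⟨Function.update Q j (insert z (Q j \ {w})), ⟨?_, ?_, ?_⟩, ?_, ?_⟩
    · intro l
      by_cases h : l = j
      · subst h; simpa using hbase
      · simpa [Function.update_of_ne h] using hb l
    · have key : ∀ l, l ≠ j → Disjoint (insert z (Q j \ {w})) (Q l) := by
        intro l hl
        rw [Set.disjoint_left]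
        rintro u (rfl | hu) hu'
        · exact hzQ l hu'
        · exact Set.disjoint_left.1 (hd j l hl.symm) hu.1 hu'
      intro a b hab
      by_cases ha : a = j
      · subst ha
        simpa only [Function.update_self, Function.update_of_ne hab.symm] using key b hab.symm
      · by_cases hb' : b = j
        · subst hb'
          simpa only [Function.update_self, Function.update_of_ne ha] using (key a ha).symm
        · simpa only [Function.update_of_ne ha, Function.update_of_ne hb'] using hd a b hab
    · ext u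
      simp only [mem_iUnion, mem_sdiff, mem_singleton_iff]
      constructor
      · rintro ⟨l, hl⟩
        by_cases h : l = j
        · subst h
          rw [Function.update_self] at hl
          rcases hl with rfl | hl
          · exact ⟨hzE, hzw⟩
          · exact ⟨(hb l).subset_ground hl.1, hl.2⟩
        · rw [Function.update_of_ne h] at hl
          refine ⟨(hb l).subset_ground hl, ?_⟩
          rintro rfl
          exact Set.disjoint_left.1 (hd l j h) hl hwQ
      · rintro ⟨huE, huw⟩
        by_cases huz : u = z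
        · exact ⟨j, by rw [Function.update_self]; exact Or.inl huz⟩
        · have : u ∈ ⋃ l, Q l := by rw [hU]; exact ⟨huE, huz⟩
          obtain ⟨l, hl⟩ := mem_iUnion.1 this
          by_cases h : l = j
          · subst h
            exact ⟨l, by rw [Function.update_self]; exact Or.inr ⟨hl, huw⟩⟩
          · exact ⟨l, by rwa [Function.update_of_ne h]⟩
    · have hsub : {l | Function.update Q j (insert z (Q j \ {w})) l ≠ P l} ⊆
          insert j {l | Q l ≠ P l} := by
        intro l hl
        by_cases h : l = j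
        · exact Or.inl h
        · right
          simpa [Function.update_of_ne h] using hl
      exact (ncard_le_ncard hsub (toFinite _)).trans
        ((ncard_insert_le _ _).trans (Nat.succ_le_succ h2))
    · intro l u hu hn'
      obtain ⟨h4, h5⟩ := h3 l u hu fun h => hn' (reach_mono i h)
      by_cases h : l = j
      · subst h
        rw [Function.update_self]
        have huw : u ≠ w := by
          rintro rfl
          exact hn' (Or.inr ⟨l, hwj, hn⟩)
        have hR : reach M P x i ⊆ M.closure (P l \ {u}) := by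
          by_contra hc
          exact hn' (Or.inr ⟨l, hu, hc⟩)
        refine ⟨Or.inr ⟨h4, huw⟩, ?_⟩
        rintro v ⟨rfl | hv, hvu⟩
        · exact hR hz
        · exact h5 ⟨hv.1, hvu⟩
      · rw [Function.update_of_ne h]
        exact ⟨h4, h5⟩

lemma stable_or (hx : M.IsNonloop x) (hP : ∀ i, M.IsBase (P i)) (i : ℕ) :
    reach M P x (i + 1) = reach M P x i ∨ ((i + 1 : ℕ) : ℕ∞) ≤ M.eRk (reach M P x i) := by
  induction i with
  | zero =>
    right
    have : M.eRk {x} = 1 := Matroid.eRk_singleton_eq_one_iff.2 hx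
    simp [reach, this]
  | succ i ih =>
    by_cases hc : reach M P x (i + 1) ⊆ M.closure (reach M P x i)
    · left
      exact subset_antisymm (step_le hc) (reach_mono _)
    · rcases ih with h | h
      · exact absurd (h.subset.trans (M.subset_closure _ (reach_ground hx.mem_ground hP i))) hc
      · right
        obtain ⟨e, he, hen⟩ := not_subset.1 hc
        have h1 := Matroid.eRk_insert_eq_add_one
          (show e ∈ M.E \ M.closure (reach M P x i) from
            ⟨reach_ground hx.mem_ground hP _ he, hen⟩)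
        have h2 : M.eRk (insert e (reach M P x i)) ≤ M.eRk (reach M P x (i + 1)) :=
          M.eRk_mono (insert_subset he (reach_mono i))
        rw [h1] at h2
        refine le_trans ?_ h2
        push_cast at h ⊢
        gcongr

lemma mem_of_stable (hE : M.E.Finite) (hP : Part M P (M.E \ {x})) {R : Set α}
    (hR : R ⊆ M.E) (hs : step M P x R = R) {y : α} {B : Fin k → Set α}
    (hB : Part M B (M.E \ {y})) : y ∈ R := by
  by_contra hy
  have hxR : x ∈ R := hs ▸ mem_insert _ _
  have hRf : R.Finite := hE.subset hR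
  have hspan : ∀ j, R ⊆ M.closure (P j ∩ R) := by
    intro j
    have hind := (hP.1 j).indep
    have h1 : P j ∩ R = ⋂₀ (insert (P j) {J | ∃ w ∈ P j, w ∉ R ∧ J = P j \ {w}}) := by
      ext u
      simp only [mem_inter_iff, mem_sInter, mem_insert_iff, mem_ofPred_eq]
      constructor
      · rintro ⟨h1, h2⟩ J (rfl | ⟨w, -, hw, rfl⟩)
        · exact h1
        · exact ⟨h1, fun h => hw (h ▸ h2)⟩
      · intro h
        have h1 := h _ (Or.inl rfl)
        refine ⟨h1, by_contra fun hu => ?_⟩
        exact (h _ (Or.inr ⟨u, h1, hu, rfl⟩)).2 rfl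
    rw [h1, hind.closure_sInter_eq_biInter_closure_of_forall_subset (insert_nonempty _ _)
      (by rintro J (rfl | ⟨w, -, -, rfl⟩); exacts [Subset.rfl, sdiff_subset])]
    refine subset_iInter₂ ?_
    rintro J (rfl | ⟨w, hw, hwR, rfl⟩)
    · rw [(hP.1 j).closure_eq]; exact hR
    · by_contra hc
      exact hwR (hs ▸ Or.inr ⟨j, hw, hc⟩)
  have hle : ∀ j, (B j ∩ R).ncard ≤ (P j ∩ R).ncard := by
    intro j
    have h1 : M.IsBasis (P j ∩ R) R :=
      ((hP.1 j).indep.inter_right R).isBasis_of_subset_of_subset_closure inter_subset_right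
        (hspan j)
    have h2 := ((hB.1 j).indep.inter_right R).encard_le_eRk_of_subset inter_subset_right
    rw [← h1.encard_eq_eRk] at h2
    exact ENat.toNat_le_toNat h2 (hRf.subset inter_subset_right).encard_lt_top.ne
  have hcount : ∀ (D : Fin k → Set α), (∀ i j, i ≠ j → Disjoint (D i) (D j)) →
      ((⋃ i, D i) ∩ R).ncard = ∑ i, (D i ∩ R).ncard := by
    intro D hD
    rw [iUnion_inter, ncard_iUnion_of_finite (fun i => hRf.subset inter_subset_right)
      (fun i j hij => (hD i j hij).mono inter_subset_left inter_subset_left),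
      finsum_eq_sum_of_fintype]
  have h1 := hcount P hP.2.1
  have h2 := hcount B hB.2.1
  rw [hP.2.2] at h1
  rw [hB.2.2] at h2
  have e1 : (M.E \ {x}) ∩ R = R \ {x} := by
    ext u; simp only [mem_inter_iff, mem_sdiff]; exact ⟨fun h => ⟨h.2, h.1.2⟩, fun h => ⟨⟨hR h.1, h.2⟩, h.1⟩⟩
  have e2 : (M.E \ {y}) ∩ R = R := by
    ext u; simp only [mem_inter_iff, mem_sdiff]
    exact ⟨fun h => h.2, fun h => ⟨⟨hR h, fun hu => hy (hu ▸ h)⟩, h⟩⟩
  rw [e1] at h1
  rw [e2] at h2
  have h3 := ncard_sdiff_singleton_lt_of_mem hxR hRf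
  have h4 : ∑ i, (B i ∩ R).ncard ≤ ∑ i, (P i ∩ R).ncard := Finset.sum_le_sum fun j _ => hle j
  omega

theorem few_changes (hE : M.E.Finite) {r : ℕ} (hr : M.eRank = r) {y : α} (hx : x ∈ M.E)
    (hP : Part M P (M.E \ {x})) {B : Fin k → Set α} (hB : Part M B (M.E \ {y})) :
    ∃ Q : Fin k → Set α, Part M Q (M.E \ {y}) ∧ {l | Q l ≠ P l}.ncard ≤ r := by
  by_cases hxy : x = y
  · subst hxy
    exact ⟨P, hP, by simp⟩
  have hxn : M.IsNonloop x := by
    have : x ∈ ⋃ i, B i := by rw [hB.2.2]; exact ⟨hx, hxy⟩
    obtain ⟨j, hj⟩ := mem_iUnion.1 this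
    exact (hB.1 j).indep.isNonloop_of_mem hj
  rcases stable_or hxn hP.1 r with h | h
  · have hy := mem_of_stable hE hP (reach_ground hx hP.1 r) h hB
    obtain ⟨Q, h1, h2, -⟩ := exists_part hx hP r y hy
    exact ⟨Q, h1, h2⟩
  · have := h.trans (M.eRk_le_eRank _)
    rw [hr] at this
    exact absurd (by exact_mod_cast this : r + 1 ≤ r) (by omega)

end Pool.Agent.Lib.MP_cb399b_co.Reach
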